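import Pool.Agent.Run7.h902.GrDim

/-!
# The cohomological dimension of the mixed potentially semistable representations

For the problem, fix a prime `ℓ`. The index set `I` consists of the pairs `(k, E)` with `k` a number
field and `E` a finite extension of `ℚ_ℓ`, and `A (k, E)` is the category of the `E`-linear
representations in `C_{k,ℓ}` (so `A (k, ℚ_ℓ) = C_{k,ℓ}`). The base `o` is `(ℚ, ℚ_ℓ)`. The functor
`(F i).res` is the restriction to `G_k` followed by `⊗ E`, the functor `(F i).ind` forgets `E` and
induces to `G_ℚ`; they are adjoint on both sides. `(W i).W` is the weight filtration step `W_0`,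
an exact functor.

1. The cohomological dimension of `C_{k,ℓ}` is the same for all number fields `k`. So the question
   for one number field contains the question for all number fields.
2. It is at most one if and only if `Ext²(1, M) = 0` in `C_{ℚ,ℓ}` for all irreducible `M` of weight
   at most zero.
3. Here `M` can be assumed to have any property `Q` which the composition factors of every
   representation acquire over a finite extension of the number field and of the coefficients. For
   example: `M` is absolutely irreducible and stays so over every finite extension of `k`, it is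
   semistable at all places above `ℓ`, and the inertia groups of all other places act unipotently.
-/

set_option autoImplicit false

open CategoryTheory Limits Abelian MonoidalCategory

universe w v u t

namespace Pool.Agent.Results.MP_5968e7_ag.OneNumberField

open Pool.Agent.Run7.h902.Gr

/-- (1) The cohomological dimension is the same for all `i`. (2), (3) It is at most one if and only
if `Ext²(1, M) = 0` for certain simple objects `M` of weight at most zero. -/
theorem result {I : Type t} (A : I → Type u) [∀ i, Category.{v} (A i)]
    [∀ i, Abelian (A i)] [∀ i, HasExt.{w} (A i)] [∀ i, MonoidalCategory (A i)]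
    [∀ i, SymmetricCategory (A i)] [∀ i, RightRigidCategory (A i)] (o : I)
    (F : ∀ i, FiniteExt (A o) (A i)) (hF : ∀ i, Nonempty ((F i).res.obj (𝟙_ (A o)) ≅ 𝟙_ (A i)))
    (W : ∀ i, WeightZero (A i)) :
    (∀ i, cd.{w} (A i) = cd.{w} (A o)) ∧
    ((∀ X : A o, Filt (fun S => Simple S) X) →
      ((∀ i, cd.{w} (A i) ≤ 1) ↔ ∀ M : A o, Simple M → IsIso ((W o).ι.app M) →
        Subsingleton (Ext.{w} (𝟙_ (A o)) M 2))) ∧
    ∀ Q : ∀ i, A i → Prop,
      (∀ X : A o, ∃ i, Filt (fun M => Simple M ∧ Q i M) ((F i).res.obj X)) →
      ((∀ i, cd.{w} (A i) ≤ 1) ↔ ∀ (i : I) (M : A i), Simple M → Q i M → IsIso ((W i).ι.app M) →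
        Subsingleton (Ext.{w} (𝟙_ (A i)) M 2)) := by
  have key : ∀ (i : I) (M : A i), Subsingleton (Ext.{w} (𝟙_ (A i)) M 2) ↔
      ∀ e : Ext.{w} (𝟙_ (A i)) M 2, e = 0 :=
    fun i M => ⟨fun h e => Subsingleton.elim _ _, fun h => ⟨fun a b => (h a).trans (h b).symm⟩⟩
  refine ⟨fun i => (F i).cd_eq, fun hfin => ?_, fun Q hQ => ?_⟩
  · have h1 : (∀ i, cd.{w} (A i) ≤ 1) ↔ cd.{w} (A o) ≤ 1 :=
      ⟨fun h => h o, fun h i => by rw [(F i).cd_eq]; exact h⟩
    rw [h1, van_two_iff (W o) hfin]
    simp only [key]
  · rw [van_two_iff_cofinal A o F hF W Q hQ]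
    simp only [key]

end Pool.Agent.Results.MP_5968e7_ag.OneNumberField
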